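import Pool.Agent.Results.MP_35f203_lc.PinningNumber
import Pool.Agent.T2H90.CJ.Main

/-!
# The pinning number of a graph in the plane is computed in polynomial time

Unconditional form of the starting file `PinningNumber` for this question, whose last part had the
theorem of Connelly, Jackson and Jordán (a graph with at least four vertices is globally rigid in the
plane if and only if it is 3-connected and redundantly rigid) as a hypothesis. Here this theorem is
proved (`Pool.Agent.T2H90.CJ.Main`).

`NPC.PolyTime f`: the function `f` on bit strings is computed by a Turing machine in polynomial time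
(Mathlib's `Turing.TM2ComputableInPolyTime`).  `NPC.bits`: the standard code of structured data as a
bit string; numbers are written in binary.  `adjMatrix G`: the adjacency matrix of a graph `G` on
`{0, ..., n-1}`, as the list of its rows, which are lists of Booleans.  `RigidInPlane G`: at every
generic realization the rank of the rigidity matrix of `G` is at least `min(n(n-1)/2, 2n-3)`.
-/

namespace Pool.Agent.Results.MP_35f203_lc.PinningNumberUnconditional

open Pool.Agent.NPC Pool.Agent.NPC.R671 Pool.Agent.H632R2.Cogirth

/-- A realization in the plane is generic if its `2|V|` coordinates are algebraically independent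
over `ℚ`. -/
def GenericRealization {n : ℕ} (p : Fin n → EuclideanSpace ℝ (Fin 2)) : Prop :=
  AlgebraicIndependent ℚ (fun c : Fin n × Fin 2 => p c.1 c.2)

/-- The vertex set `P` pins `G`: for every generic realization `p`, whenever the realization `q` has
the same edge lengths as `p` and agrees with `p` on `P`, then `q = p`. -/
def Pins {n : ℕ} (G : SimpleGraph (Fin n)) (P : Finset (Fin n)) : Prop :=
  ∀ p : Fin n → EuclideanSpace ℝ (Fin 2), GenericRealization p →
    ∀ q : Fin n → EuclideanSpace ℝ (Fin 2),
      (∀ u v, G.Adj u v → dist (q u) (q v) = dist (p u) (p v)) → (∀ v ∈ P, q v = p v) → q = p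

/-- The pinning number `pin(G)`: the least size of a set which pins `G`. -/
noncomputable def pin {n : ℕ} (G : SimpleGraph (Fin n)) : ℕ :=
  sInf {k | ∃ P : Finset (Fin n), Pins G P ∧ P.card = k}

/-- `K(P)`: the complete graph on `P`, as a graph on `V`. -/
def K {n : ℕ} (P : Finset (Fin n)) : SimpleGraph (Fin n) :=
  SimpleGraph.fromRel fun u v => u ∈ P ∧ v ∈ P

/-- At least four vertices, and the deletion of at most two vertices leaves a connected graph. -/
def ThreeConnected {n : ℕ} (G : SimpleGraph (Fin n)) : Prop :=
  4 ≤ n ∧ ∀ S : Finset (Fin n), S.card ≤ 2 → (G.induce {v | v ∉ S}).Connected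

/-- Rigid, and still rigid after the deletion of any one edge. -/
def RedundantlyRigid {n : ℕ} (G : SimpleGraph (Fin n)) : Prop :=
  RigidInPlane G ∧ ∀ e ∈ G.edgeSet, RigidInPlane (G.deleteEdges {e})

theorem cjj (n : ℕ) (hn : 4 ≤ n) (G : SimpleGraph (Fin n)) :
    PinningNumber.GloballyRigid G ↔
      PinningNumber.ThreeConnected G ∧ PinningNumber.RedundantlyRigid G := by
  rw [PinningNumber.gr_iff',
    Pool.Agent.T2H90.CJ.connelly_jackson_jordan G (by rw [Fintype.card_fin]; exact hn)]
  unfold PinningNumber.ThreeConnected PinningNumber.RedundantlyRigid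
  constructor
  · rintro ⟨h1, h2⟩
    exact ⟨⟨hn, h1⟩, h2⟩
  · rintro ⟨⟨-, h1⟩, h2⟩
    exact ⟨h1, h2⟩

open Classical in
/-- **The global rigidity pinning problem in the plane is solvable in polynomial time.**
(1) Some polynomial-time algorithm computes, given a graph `G`, the pinning number `pin(G)`.
(2) Some polynomial-time algorithm decides, given a graph `G` and a number `k`, whether
`pin(G) ≤ k`.
(3) Some polynomial-time algorithm outputs, given a graph `G`, (the characteristic vector of) a
smallest set which pins `G`.
(4) A set `P` pins `G` if and only if `P` is the set of all vertices, or `P` has at least three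
members and `G + K(P)` is 3-connected and redundantly rigid. -/
theorem result :
    (∃ f : List Bool → List Bool, PolyTime f ∧ ∀ (n : ℕ) (G : SimpleGraph (Fin n)),
      f (bits (adjMatrix G)) = bits (pin G)) ∧
    (∃ f : List Bool → List Bool, PolyTime f ∧ ∀ (n : ℕ) (G : SimpleGraph (Fin n)) (k : ℕ),
      f (bits (adjMatrix G, k)) = bits (decide (pin G ≤ k))) ∧
    (∃ f : List Bool → List Bool, PolyTime f ∧ ∀ (n : ℕ) (G : SimpleGraph (Fin n)),
      ∃ P : Finset (Fin n), Pins G P ∧ P.card = pin G ∧
        f (bits (adjMatrix G)) = bits (List.ofFn fun i => decide (i ∈ P))) ∧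
    (∀ (n : ℕ) (G : SimpleGraph (Fin n)) (P : Finset (Fin n)),
      Pins G P ↔ P = Finset.univ ∨
        (3 ≤ P.card ∧ ThreeConnected (G ⊔ K P) ∧ RedundantlyRigid (G ⊔ K P))) := by
  obtain ⟨h1, h2, h3, h4⟩ := PinningNumber.result.2.2 cjj
  exact ⟨h2, h3, h4, h1⟩

end Pool.Agent.Results.MP_35f203_lc.PinningNumberUnconditional
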